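import Mathlib

set_option autoImplicit false

open Set Topology Filter Ordinal Order

namespace Pool.Agent.Results.MP_12cd8a_lc.NoP5

/-- `θ ≲ θ'`. -/
def Less (a b : Ordinal.{0}) : Prop :=
  ∀ η : Ordinal.{0}, 1 ≤ η → η < ω₁ → b ≤ ω ^ η → a ≤ ω ^ η

/-- `θ ≈ θ'`. -/
def Approx (a b : Ordinal.{0}) : Prop := Less a b ∧ Less b a

variable {X : Type} [TopologicalSpace X]

/-- Bounded Baire class 1 functions (pointwise limits of continuous functions). -/
def BB1 (f : X → ℝ) : Prop :=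
  (∃ M, ∀ x, |f x| ≤ M) ∧ ∃ g : ℕ → X → ℝ, (∀ n, Continuous (g n)) ∧
    ∀ x, Tendsto (fun n => g n x) atTop (𝓝 (f x))

/-- `Δ⁰₂` sets: `G_δ` with `G_δ` complement. -/
def Delta2 (A : Set X) : Prop := IsGδ A ∧ IsGδ Aᶜ

/-- The transfinite difference of `(F η)_{η < l}`. -/
def tdiff (F : Ordinal.{0} → Set X) (l : Ordinal.{0}) : Set X :=
  ⋃ (η : Ordinal.{0}) (_ : η < l ∧ η % 2 = 0), F η \ F (η + 1)

/-- `(F η)_{η < l}` is a continuous decreasing sequence of closed sets (`F η = ∅` for `η ≥ l`). -/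
structure ContSeq (F : Ordinal.{0} → Set X) (l : Ordinal.{0}) : Prop where
  closed : ∀ η, IsClosed (F η)
  anti : Antitone F
  zero : F 0 = Set.univ
  lim : ∀ η < l, IsSuccLimit η → F η = ⋂ θ < η, F θ
  limEmpty : IsSuccLimit l → ⋂ θ < l, F θ = ∅
  beyond : ∀ η, l ≤ η → F η = ∅

/-- Some continuous sequence of length `l` separates `B` from `C`. -/
def Sep (B C : Set X) (l : Ordinal.{0}) : Prop :=
  ∃ F, ContSeq F l ∧ B ⊆ tdiff F l ∧ tdiff F l ∩ C = ∅

/-- `α₁(B, C)`. -/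
noncomputable def alphaSet (B C : Set X) : Ordinal.{0} := sInf {l | Sep B C l}

/-- `α₁(f)`. -/
noncomputable def alpha (f : X → ℝ) : Ordinal.{0} :=
  ⨆ pq : {pq : ℚ × ℚ // pq.1 < pq.2},
    alphaSet {x | f x ≤ (pq.1.1 : ℝ)} {x | (pq.1.2 : ℝ) ≤ f x}

open Classical in
noncomputable def sel (θ : Ordinal.{0}) (B C : Set X) : Set X := if θ % 2 = 0 then C else B

noncomputable def G (B C : Set X) (θ : Ordinal.{0}) : Set X :=
  limitRecOn (motive := fun _ => Set X) θ Set.univ (fun o S => closure (S ∩ sel o B C))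
    (fun o _ ih => ⋂ (a : Ordinal.{0}) (h : a < o), ih a h)

lemma G_zero (B C : Set X) : G B C 0 = Set.univ := limitRecOn_zero ..
lemma G_succ (B C : Set X) (o : Ordinal.{0}) :
    G B C (o + 1) = closure (G B C o ∩ sel o B C) := limitRecOn_add_one ..
lemma G_lim (B C : Set X) {o : Ordinal.{0}} (h : IsSuccLimit o) :
    G B C o = ⋂ a < o, G B C a := by
  conv_lhs => unfold G
  rw [limitRecOn_limit _ _ _ _ h]; rfl

lemma G_closed (B C : Set X) (o : Ordinal.{0}) : IsClosed (G B C o) := by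
  induction o using limitRecOn with
  | zero => rw [G_zero]; exact isClosed_univ
  | add_one o _ => rw [G_succ]; exact isClosed_closure
  | limit o h ih => rw [G_lim B C h]; exact isClosed_biInter ih

lemma G_anti (B C : Set X) : Antitone (G B C) := by
  intro a b
  induction b using limitRecOn with
  | zero => intro h; rw [nonpos_iff_eq_zero.1 h]
  | add_one o ih =>
    intro h
    rcases h.eq_or_lt with h | h
    · rw [h]
    · refine Subset.trans ?_ (ih (Order.lt_add_one_iff.1 h))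
      rw [G_succ]; exact closure_minimal inter_subset_left (G_closed _ _ _)
  | limit o h _ =>
    intro hab
    rcases hab.eq_or_lt with hab | hab
    · rw [hab]
    · rw [G_lim B C h]; exact biInter_subset_of_mem hab

lemma G_mono {B C B' C' : Set X} (hB : B ⊆ B') (hC : C ⊆ C') (o : Ordinal.{0}) :
    G B C o ⊆ G B' C' o := by
  induction o using limitRecOn with
  | zero => rw [G_zero, G_zero]
  | add_one o ih =>
    rw [G_succ, G_succ]
    refine closure_mono (inter_subset_inter ih ?_)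
    unfold sel; split_ifs; exacts [hC, hB]
  | limit o h ih => rw [G_lim B C h, G_lim B' C' h]; exact iInter₂_mono ih

lemma ContSeq.level {F : Ordinal.{0} → Set X} {l : Ordinal.{0}} (h : ContSeq F l) (x : X) :
    ∃ η < l, x ∈ F η \ F (η + 1) := by
  obtain ⟨θ, hθ, hmin⟩ := (wellFounded_lt (α := Ordinal.{0})).has_min {θ | x ∉ F θ}
    ⟨l, by simp [h.beyond l le_rfl]⟩
  have hl : θ ≤ l := not_lt.1 (hmin l (by simp [h.beyond l le_rfl]))
  have hlt : ∀ a < θ, x ∈ F a := fun a ha => by_contra fun hx => hmin a hx ha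
  rcases zero_or_succ_or_isSuccLimit θ with rfl | ⟨η, rfl⟩ | hlim
  · exact absurd (h.zero ▸ mem_univ x) hθ
  · exact ⟨η, (lt_succ η).trans_le hl, hlt η (lt_succ η), by simpa using hθ⟩
  · exfalso
    rcases hl.eq_or_lt with rfl | hl
    · have : x ∈ ⋂ a < θ, F a := mem_iInter₂.2 hlt
      rw [h.limEmpty hlim] at this; exact this
    · exact hθ (h.lim θ hl hlim ▸ mem_iInter₂.2 hlt)

lemma ContSeq.uniq {F : Ordinal.{0} → Set X} {l : Ordinal.{0}} (h : ContSeq F l) {x : X}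
    {a b : Ordinal.{0}} (ha : x ∈ F a \ F (a + 1)) (hb : x ∈ F b \ F (b + 1)) : a = b := by
  rcases lt_trichotomy a b with hab | hab | hab
  · exact absurd (h.anti (Order.add_one_le_iff.2 hab) hb.1) ha.2
  · exact hab
  · exact absurd (h.anti (Order.add_one_le_iff.2 hab) ha.1) hb.2

lemma mem_tdiff {F : Ordinal.{0} → Set X} {l : Ordinal.{0}} {x : X} :
    x ∈ tdiff F l ↔ ∃ η, (η < l ∧ η % 2 = 0) ∧ x ∈ F η \ F (η + 1) := by
  simp only [tdiff, mem_iUnion, exists_prop]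

lemma sep_of_G {B C : Set X} {l : Ordinal.{0}} (h : G B C l = ∅) : Sep B C l := by
  have hc : ContSeq (G B C) l := ⟨G_closed B C, G_anti B C, G_zero B C,
    fun η _ hη => G_lim B C hη, fun hl => (G_lim B C hl).symm.trans h,
    fun η hη => subset_eq_empty (G_anti B C hη) h⟩
  refine ⟨_, hc, fun x hx => ?_, eq_empty_of_forall_notMem fun x hx => ?_⟩
  · obtain ⟨η, hη, hxη⟩ := hc.level x
    refine mem_tdiff.2 ⟨η, ⟨hη, by_contra fun he => hxη.2 ?_⟩, hxη⟩
    rw [G_succ]; exact subset_closure ⟨hxη.1, by simpa [sel, he] using hx⟩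
  · obtain ⟨η, ⟨-, he⟩, hxη⟩ := mem_tdiff.1 hx.1
    refine hxη.2 ?_
    rw [G_succ]; exact subset_closure ⟨hxη.1, by simpa [sel, he] using hx.2⟩

lemma G_of_sep {B C : Set X} {l : Ordinal.{0}} (h : Sep B C l) : G B C l = ∅ := by
  obtain ⟨F, hF, hB, hC⟩ := h
  have : ∀ θ ≤ l, G B C θ ⊆ F θ := by
    intro θ
    induction θ using limitRecOn with
    | zero => intro _; rw [hF.zero]; exact subset_univ _
    | add_one o ih =>
      intro ho
      have ho' : o < l := Order.add_one_le_iff.1 ho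
      rw [G_succ]
      refine closure_minimal (fun x hx => by_contra fun hn => ?_) (hF.closed _)
      have hx1 : x ∈ F o \ F (o + 1) := ⟨ih ho'.le hx.1, hn⟩
      by_cases he : o % 2 = 0
      · have : x ∈ tdiff F l ∩ C := ⟨mem_tdiff.2 ⟨o, ⟨ho', he⟩, hx1⟩, by simpa [sel, he] using hx.2⟩
        rw [hC] at this; exact this
      · obtain ⟨η, ⟨-, hη⟩, hx2⟩ := mem_tdiff.1 (hB (by simpa [sel, he] using hx.2))
        exact he (hF.uniq hx1 hx2 ▸ hη)
    | limit o h ih =>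
      intro ho
      have h1 : G B C o ⊆ ⋂ a < o, F a := by
        rw [G_lim B C h]; exact iInter₂_mono fun a ha => ih a ha (ha.le.trans ho)
      rcases ho.eq_or_lt with rfl | ho
      · rw [hF.limEmpty h] at h1; exact h1.trans (empty_subset _)
      · rwa [hF.lim o ho h]
  exact subset_eq_empty (this l le_rfl) (hF.beyond l le_rfl)

lemma exists_sep [PolishSpace X] {B C : Set X} (hB : IsGδ B) (hC : IsGδ C) (hd : Disjoint B C) :
    ∃ l, Sep B C l := by
  have hinj := not_injective_of_ordinal (fun θ : Ordinal.{0} => G B C (2 * θ))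
  obtain ⟨a, b, hab, he⟩ : ∃ a b, a < b ∧ G B C (2 * a) = G B C (2 * b) := by
    by_contra hn
    push Not at hn
    refine hinj fun a b h => ?_
    rcases lt_trichotomy a b with h' | h' | h'
    · exact absurd h (hn a b h')
    · exact h'
    · exact absurd h.symm (hn b a h')
  have hle : 2 * a + 1 + 1 ≤ 2 * b := by
    rw [add_assoc, one_add_one_eq_two, ← mul_add_one]
    exact mul_le_mul_right (Order.add_one_le_iff.2 hab) _
  have h2 : G B C (2 * a) ⊆ G B C (2 * a + 1 + 1) := he ▸ G_anti B C hle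
  have h1 : G B C (2 * a) ⊆ G B C (2 * a + 1) := h2.trans (G_anti B C le_self_add)
  have e1 : G B C (2 * a + 1) = G B C (2 * a) := (G_anti B C le_self_add).antisymm h1
  rw [G_succ, e1] at h2
  rw [G_succ] at h1
  have s1 : sel (2 * a) B C = C := by simp [sel]
  have s2 : sel (2 * a + 1) B C = B := by
    have : (2 * a + 1) % 2 = 1 := by rw [mul_add_mod_self, mod_eq_of_lt one_lt_two]
    simp [sel, this]
  rw [s1] at h1
  rw [s2] at h2
  refine ⟨2 * a, sep_of_G (eq_empty_of_forall_notMem fun y hy => ?_)⟩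
  haveI := (G_closed B C (2 * a)).polishSpace
  haveI : Nonempty (G B C (2 * a)) := ⟨⟨y, hy⟩⟩
  have hden : ∀ S : Set X, G B C (2 * a) ⊆ closure (G B C (2 * a) ∩ S) →
      Dense ((↑) ⁻¹' S : Set (G B C (2 * a))) := fun S hS => by
    rw [Subtype.dense_iff, Subtype.image_preimage_coe]; exact hS
  obtain ⟨z, hz1, hz2⟩ := (Dense.inter_of_Gδ (hB.preimage continuous_subtype_val)
    (hC.preimage continuous_subtype_val) (hden B h2) (hden C h1)).nonempty
  exact disjoint_left.1 hd hz1 hz2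

lemma countable_Iio {θ : Ordinal.{0}} (h : θ < ω₁) : (Iio θ).Countable := by
  rw [← Cardinal.le_aleph0_iff_set_countable, Cardinal.mk_Iio_ordinal, Cardinal.lift_le_aleph0]
  exact Cardinal.lt_aleph_one_iff.1 (Cardinal.lt_omega_iff_card_lt.1 h)

lemma closed_union {Y : Type} [MetricSpace Y] (y : Y) (ε : ℝ) (D : ℕ → Set Y)
    (hD : ∀ n, IsClosed (D n)) (hb : ∀ n, D n ⊆ Metric.ball y (ε * (1 / ((n : ℝ) + 1)))) :
    IsClosed (insert y (⋃ n, D n)) := by
  refine isOpen_compl_iff.1 (isOpen_iff_mem_nhds.2 fun z hz => ?_)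
  have hzy : z ≠ y := fun h => hz (Or.inl h)
  have hr : 0 < dist z y / 2 := half_pos (dist_pos.2 hzy)
  have ht : Tendsto (fun n : ℕ => ε * (1 / ((n : ℝ) + 1))) atTop (𝓝 0) := by
    simpa using tendsto_one_div_add_atTop_nhds_zero_nat.const_mul ε
  obtain ⟨N, hN⟩ := eventually_atTop.1 (ht.eventually (gt_mem_nhds hr))
  have h1 : ⋂ n ∈ Finset.range N, (D n)ᶜ ∈ 𝓝 z :=
    (Filter.biInter_finset_mem _).2 fun n _ =>
      (hD n).isOpen_compl.mem_nhds fun h => hz (Or.inr (mem_iUnion.2 ⟨n, h⟩))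
  filter_upwards [h1, Metric.ball_mem_nhds z hr] with w hw1 hw2
  have hw3 : dist z y / 2 ≤ dist w y := by
    have := dist_triangle z w y
    rw [Metric.mem_ball, dist_comm] at hw2
    linarith
  rintro (rfl | h)
  · rw [dist_self] at hw3; linarith
  · obtain ⟨n, hn⟩ := mem_iUnion.1 h
    by_cases hnN : n < N
    · exact mem_iInter₂.1 hw1 n (Finset.mem_range.2 hnN) hn
    · have := hb n hn
      rw [Metric.mem_ball] at this
      linarith [hN n (not_lt.1 hnN)]

lemma exists_D {Y : Type} [MetricSpace Y] (P Q : Set Y) (θ : Ordinal.{0}) :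
    θ < ω₁ → ∀ y ∈ G P Q θ, ∀ ε > 0, ∃ D : Set Y, IsClosed D ∧ D.Countable ∧ y ∈ D ∧
      D ⊆ Metric.ball y ε ∧ D ⊆ insert y (P ∪ Q) ∧ y ∈ G (P ∩ D) (Q ∩ D) θ := by
  have hpos : ∀ ε > (0 : ℝ), ∀ n : ℕ, 0 < ε * (1 / ((n : ℝ) + 1)) := fun ε hε n => by positivity
  have hle : ∀ ε > (0 : ℝ), ∀ n : ℕ, ε * (1 / ((n : ℝ) + 1)) ≤ ε := fun ε hε n =>
    mul_le_of_le_one_right hε.le (by
      rw [div_le_one (by positivity)]; linarith [(Nat.cast_nonneg n : (0 : ℝ) ≤ n)])
  induction θ using limitRecOn with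
  | zero =>
    intro _ y _ ε hε
    exact ⟨{y}, isClosed_singleton, countable_singleton y, rfl,
      singleton_subset_iff.2 (Metric.mem_ball_self hε), singleton_subset_iff.2 (Or.inl rfl),
      by rw [G_zero]; trivial⟩
  | add_one o ih =>
    intro ho y hy ε hε
    have ho' : o < ω₁ := le_self_add.trans_lt ho
    rw [G_succ] at hy
    have h1 := fun n : ℕ => Metric.mem_closure_iff.1 hy _ (half_pos (hpos ε hε n))
    choose z hz hzd using h1
    choose D hDc hDn hzD hDb hDs hDG using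
      fun n : ℕ => ih ho' (z n) (hz n).1 _ (half_pos (hpos ε hε n))
    have hb : ∀ n, D n ⊆ Metric.ball y (ε * (1 / ((n : ℝ) + 1))) := fun n w hw => by
      have h1 := hDb n hw
      have h2 := hzd n
      rw [Metric.mem_ball] at h1 ⊢
      linarith [dist_triangle w (z n) y, dist_comm y (z n)]
    have hzPQ : ∀ n, z n ∈ P ∪ Q := fun n => by
      have := (hz n).2
      unfold sel at this; split_ifs at this; exacts [Or.inr this, Or.inl this]
    have hsub : ∀ n, D n ⊆ insert y (⋃ n, D n) := fun n w hw => Or.inr (mem_iUnion.2 ⟨n, hw⟩)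
    refine ⟨insert y (⋃ n, D n), closed_union y ε D hDc hb, (countable_iUnion hDn).insert y,
      Or.inl rfl, insert_subset (Metric.mem_ball_self hε) (iUnion_subset fun n =>
        (hb n).trans (Metric.ball_subset_ball (hle ε hε n))),
      insert_subset_insert (iUnion_subset fun n => (hDs n).trans (insert_subset (hzPQ n) Subset.rfl)),
      ?_⟩
    rw [G_succ]
    refine Metric.mem_closure_iff.2 fun δ hδ => ?_
    have ht : Tendsto (fun n : ℕ => ε * (1 / ((n : ℝ) + 1))) atTop (𝓝 0) := by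
      simpa using tendsto_one_div_add_atTop_nhds_zero_nat.const_mul ε
    obtain ⟨n, hn⟩ := (ht.eventually (gt_mem_nhds hδ)).exists
    refine ⟨z n, ⟨G_mono (inter_subset_inter_right _ (hsub n)) (inter_subset_inter_right _ (hsub n))
      o (hDG n), ?_⟩, by linarith [hzd n, hpos ε hε n]⟩
    have := (hz n).2
    unfold sel at this ⊢
    split_ifs at this ⊢ <;> exact ⟨this, hsub n (hzD n)⟩
  | limit o h ih =>
    intro ho y hy ε hε
    obtain ⟨e, he⟩ := (countable_Iio ho).exists_eq_range ⟨0, h.bot_lt⟩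
    have heo : ∀ n, e n < o := fun n => (he ▸ mem_range_self n : e n ∈ Iio o)
    choose D hDc hDn hzD hDb hDs hDG using
      fun n : ℕ => ih (e n) (heo n) ((heo n).trans ho) y (G_anti P Q (heo n).le hy) _ (hpos ε hε n)
    have hsub : ∀ n, D n ⊆ insert y (⋃ n, D n) := fun n w hw => Or.inr (mem_iUnion.2 ⟨n, hw⟩)
    refine ⟨insert y (⋃ n, D n), closed_union y ε D hDc hDb, (countable_iUnion hDn).insert y,
      Or.inl rfl, insert_subset (Metric.mem_ball_self hε) (iUnion_subset fun n =>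
        (hDb n).trans (Metric.ball_subset_ball (hle ε hε n))),
      insert_subset (Or.inl rfl) (iUnion_subset hDs), ?_⟩
    rw [G_lim _ _ h]
    refine mem_iInter₂.2 fun a ha => ?_
    obtain ⟨n, rfl⟩ : a ∈ range e := he ▸ ha
    exact G_mono (inter_subset_inter_right _ (hsub n)) (inter_subset_inter_right _ (hsub n)) _
      (hDG n)

lemma BB1.add {f g : X → ℝ} (hf : BB1 f) (hg : BB1 g) : BB1 (f + g) := by
  obtain ⟨⟨M, hM⟩, a, ha, ha'⟩ := hf
  obtain ⟨⟨N, hN⟩, b, hb, hb'⟩ := hg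
  exact ⟨⟨M + N, fun x => (abs_add_le _ _).trans (add_le_add (hM x) (hN x))⟩,
    fun n => a n + b n, fun n => (ha n).add (hb n), fun x => (ha' x).add (hb' x)⟩

lemma BB1.lip {f : X → ℝ} (hf : BB1 f) {h : ℝ → ℝ} {K : NNReal} (hh : LipschitzWith K h) :
    BB1 (h ∘ f) := by
  obtain ⟨⟨M, hM⟩, a, ha, ha'⟩ := hf
  refine ⟨⟨|h 0| + K * M, fun x => ?_⟩, fun n => h ∘ a n, fun n => hh.continuous.comp (ha n),
    fun x => (hh.continuous.tendsto _).comp (ha' x)⟩
  have h1 := hh.dist_le_mul (f x) 0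
  rw [Real.dist_eq, Real.dist_eq, _root_.sub_zero] at h1
  have h2 : (K : ℝ) * |f x| ≤ K * M := mul_le_mul_of_nonneg_left (hM x) K.2
  have h3 := abs_sub_abs_le_abs_sub (h (f x)) (h 0)
  change |h (f x)| ≤ _
  linarith

lemma BB1.smul {f : X → ℝ} (hf : BB1 f) (c : ℝ) : BB1 (c • f) :=
  hf.lip (h := fun t => c • t) (lipschitzWith_smul c)

lemma BB1.ind [PolishSpace X] {A : Set X} (hA : Delta2 A) : BB1 (A.indicator (1 : X → ℝ)) := by
  classical
  obtain ⟨U, hU, hAU⟩ := hA.1.eq_iInter_nat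
  obtain ⟨V, hV, hAV⟩ := hA.2.eq_iInter_nat
  have hcl : ∀ W : ℕ → Set X, (∀ n, IsOpen (W n)) → ∀ n,
      IsClosed (⋃ k ∈ Finset.range (n + 1), (W k)ᶜ) := fun W hW n =>
    isClosed_biUnion_finset fun k _ => (hW k).isClosed_compl
  have hd : ∀ n, Disjoint (⋃ k ∈ Finset.range (n + 1), (U k)ᶜ)
      (⋃ k ∈ Finset.range (n + 1), (V k)ᶜ) := fun n => by
    refine disjoint_left.2 fun x h1 h2 => ?_
    obtain ⟨i, -, hi⟩ := mem_iUnion₂.1 h1
    obtain ⟨j, -, hj⟩ := mem_iUnion₂.1 h2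
    by_cases hx : x ∈ A
    · exact hi (mem_iInter.1 (hAU ▸ hx) i)
    · exact hj (mem_iInter.1 (hAV ▸ (hx : x ∈ Aᶜ)) j)
  choose g hg0 hg1 _ using fun n =>
    exists_continuous_zero_one_of_isClosed (hcl U hU n) (hcl V hV n) (hd n)
  refine ⟨⟨1, fun x => by by_cases hx : x ∈ A <;> simp [hx]⟩, fun n => g n,
    fun n => (g n).continuous, fun x => tendsto_const_nhds.congr' ?_⟩
  by_cases hx : x ∈ A
  · obtain ⟨j, hj⟩ : ∃ j, x ∉ V j := by
      by_contra hn
      push Not at hn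
      exact (hAV ▸ mem_iInter.2 hn : x ∈ Aᶜ) hx
    filter_upwards [eventually_ge_atTop j] with n hn
    rw [hg1 n (mem_iUnion₂.2 ⟨j, Finset.mem_range.2 (Nat.lt_succ_of_le hn), hj⟩)]
    simp [hx]
  · obtain ⟨j, hj⟩ : ∃ j, x ∉ U j := by
      by_contra hn
      push Not at hn
      exact hx (hAU ▸ mem_iInter.2 hn)
    filter_upwards [eventually_ge_atTop j] with n hn
    rw [hg0 n (mem_iUnion₂.2 ⟨j, Finset.mem_range.2 (Nat.lt_succ_of_le hn), hj⟩)]
    simp [hx]

/-- `ρ` assigns countable ordinals to bounded Baire class 1 functions on `X` and has the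
properties (P1)-(P4). -/
structure RankP14 (ρ : (X → ℝ) → Ordinal.{0}) : Prop where
  count : ∀ f, BB1 f → ρ f < ω₁
  P1 : ∀ A : Set X, Delta2 A → Approx (ρ (A.indicator 1)) (alphaSet A Aᶜ)
  P2smul : ∀ f, BB1 f → ∀ c : ℝ, c ≠ 0 → Approx (ρ (c • f)) (ρ f)
  P2add : ∀ f g, BB1 f → BB1 g → Less (ρ (f + g)) (max (ρ f) (ρ g))
  P3 : ∀ (fs : ℕ → X → ℝ) (f : X → ℝ), (∀ n, BB1 (fs n)) → BB1 f →
    TendstoUniformly fs f atTop → Less (ρ f) (⨆ n, ρ (fs n))
  P4 : ∀ f, BB1 f → ∀ (h : ℝ → ℝ) (K : NNReal), LipschitzWith K h → Less (ρ (h ∘ f)) (ρ f)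

def Good (ρ : (X → ℝ) → Ordinal.{0}) (η : Ordinal.{0}) (f : X → ℝ) : Prop :=
  BB1 f ∧ ρ f ≤ ω ^ η

section
variable [PolishSpace X] {ρ : (X → ℝ) → Ordinal.{0}} (hρ : RankP14 ρ) {η : Ordinal.{0}}
  (h1 : 1 ≤ η) (h2 : η < ω₁)
include hρ h1 h2

lemma good_ind {A : Set X} (hA : Delta2 A) {l : Ordinal.{0}} (hs : Sep A Aᶜ l) (hl : l ≤ ω ^ η) :
    Good ρ η (A.indicator 1) :=
  ⟨BB1.ind hA, (hρ.P1 A hA).1 η h1 h2 ((csInf_le' (s := {l | Sep A Aᶜ l}) hs).trans hl)⟩

lemma good_open {U : Set X} (hU : IsOpen U) : Good ρ η (U.indicator 1) := by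
  refine good_ind hρ h1 h2 ⟨hU.isGδ, hU.isClosed_compl.isGδ⟩ (l := 0 + 1 + 1) (sep_of_G ?_) ?_
  · have : (1 : Ordinal.{0}) % 2 = 1 := mod_eq_of_lt one_lt_two
    rw [G_succ, G_succ, G_zero]
    simp [sel, this, hU.isClosed_compl.closure_eq]
  · refine le_trans ?_ (left_le_opow ω (one_pos.trans_le h1))
    simpa [one_add_one_eq_two] using (natCast_lt_omega0 2).le

omit [PolishSpace X] in
lemma good_add {f g : X → ℝ} (hf : Good ρ η f) (hg : Good ρ η g) : Good ρ η (f + g) :=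
  ⟨hf.1.add hg.1, hρ.P2add f g hf.1 hg.1 η h1 h2 (max_le hf.2 hg.2)⟩

omit [PolishSpace X] in
lemma good_lip {f : X → ℝ} (hf : Good ρ η f) {h : ℝ → ℝ} {K : NNReal} (hh : LipschitzWith K h) :
    Good ρ η (h ∘ f) := ⟨hf.1.lip hh, hρ.P4 f hf.1 h K hh η h1 h2 hf.2⟩

omit [PolishSpace X] in
lemma good_smul {f : X → ℝ} (hf : Good ρ η f) (c : ℝ) : Good ρ η (c • f) :=
  good_lip hρ h1 h2 hf (h := fun t => c • t) (lipschitzWith_smul c)

lemma lower {f : X → ℝ} (hf : Good ρ η f) {p q : ℝ} (hpq : p < q) :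
    G {x | f x ≤ p} {x | q ≤ f x} (ω ^ η) = ∅ := by
  classical
  letI := TopologicalSpace.upgradeIsCompletelyMetrizable X
  refine eq_empty_of_forall_notMem fun y hy => ?_
  set P := {x | f x ≤ p} with hP
  set Q := {x | q ≤ f x} with hQ
  obtain ⟨D, hDc, hDn, hyD, -, hDs, hyG⟩ := exists_D P Q _
    (isPrincipal_opow_omega 1 omega0_lt_omega_one h2) y hy 1 one_pos
  have hB : Delta2 (P ∩ D) := by
    refine ⟨?_, (hDn.mono inter_subset_right).isGδ_compl⟩
    have : P ∩ D = D ∩ (D \ P)ᶜ := by ext x; simp only [mem_inter_iff, mem_compl_iff, mem_diff]; tauto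
    rw [this]
    exact hDc.isGδ.inter (hDn.mono diff_subset).isGδ_compl
  obtain ⟨O, hO, hO1, hO2⟩ : ∃ O : Set X, IsOpen O ∧ (∀ x, x ≠ y → x ∈ O) ∧
      (y ∈ O ↔ y ∈ P ∪ Q) := by
    by_cases h : y ∈ P ∪ Q
    · exact ⟨Set.univ, isOpen_univ, fun _ _ => trivial, by simp [h]⟩
    · exact ⟨{y}ᶜ, isOpen_compl_singleton, fun _ h => h, by simp [h]⟩
  have ga := good_add hρ h1 h2 (good_open hρ h1 h2 hO)
    (good_smul hρ h1 h2 (good_open hρ h1 h2 hDc.isOpen_compl) (-1))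
  have l1 : LipschitzWith 1 (fun t : ℝ => max p (min t q)) :=
    (LipschitzWith.id.min_const q).const_max p
  have gb := good_smul hρ h1 h2 (good_lip hρ h1 h2 hf l1) (-(q - p)⁻¹)
  have l2 : LipschitzWith 1 (fun t : ℝ => max (t + p / (q - p)) 0) :=
    (isometry_add_right (p / (q - p))).lipschitz.max_const 0
  have gc := good_lip hρ h1 h2 (good_add hρ h1 h2 ga gb) l2
  have hqp : 0 < q - p := sub_pos.2 hpq
  have he : ((fun t : ℝ => max (t + p / (q - p)) 0) ∘ (O.indicator 1 + (-1 : ℝ) • Dᶜ.indicator 1 +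
      (-(q - p)⁻¹) • (fun t : ℝ => max p (min t q)) ∘ f)) = (P ∩ D).indicator (1 : X → ℝ) := by
    ext x
    have key : ∀ a t : ℝ, a + -(q - p)⁻¹ * t + p / (q - p) = a - (t - p) / (q - p) := fun a t => by
      field_simp; ring
    have hnn : 0 ≤ (max p (min (f x) q) - p) / (q - p) :=
      div_nonneg (sub_nonneg.2 (le_max_left _ _)) hqp.le
    simp only [Function.comp, Pi.add_apply, Pi.smul_apply, _root_.smul_eq_mul, key]
    by_cases hxD : x ∈ D
    · by_cases hxO : x ∈ O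
      · have hx : x ∈ P ∪ Q := by
          rcases hDs hxD with rfl | h
          · exact hO2.1 hxO
          · exact h
        rcases hx with hx | hx
        · have : max p (min (f x) q) = p := max_eq_left ((min_le_left _ _).trans hx)
          simp [hxD, hxO, hx, this]
        · have hx' : x ∉ P := fun h => absurd (hx.trans h) (not_le.2 hpq)
          have : max p (min (f x) q) = q := by rw [min_eq_right hx, max_eq_right hpq.le]
          simp [hxD, hxO, hx', this, div_self hqp.ne']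
      · have hx' : x ∉ P := fun h => by
          by_cases hxy : x = y
          · exact hxO (hxy ▸ hO2.2 (Or.inl (hxy ▸ h)))
          · exact hxO (hO1 x hxy)
        simpa [hxD, hxO, hx'] using hnn
    · have hxO : x ∈ O := hO1 x fun h => hxD (h ▸ hyD)
      simpa [hxD, hxO] using hnn
  rw [he] at gc
  have h3 := (hρ.P1 _ hB).2 η h1 h2 gc.2
  have h4 : Sep (P ∩ D) (P ∩ D)ᶜ (alphaSet (P ∩ D) (P ∩ D)ᶜ) :=
    csInf_mem (exists_sep hB.1 hB.2 disjoint_compl_right)
  have h5 := G_anti _ _ h3 (G_mono Subset.rfl (C' := (P ∩ D)ᶜ)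
    (fun x hx hx' => absurd (hx.1.trans hx'.1) (not_le.2 hpq)) _ hyG)
  rw [G_of_sep h4] at h5
  exact h5

lemma sepset {f : X → ℝ} (hf : BB1 f) (ha : alpha f ≤ ω ^ η) {p q : ℚ} (hpq : p < q) :
    ∃ H : Set X, Good ρ η (H.indicator 1) ∧ (∀ x, f x ≤ p → x ∈ H) ∧ ∀ x, q ≤ f x → x ∉ H := by
  have hc := hρ.count f hf
  have hne : ∃ l, Sep {x | f x ≤ p} {x | q ≤ f x} l :=
    ⟨_, sep_of_G (lower hρ (η := ρ f + 1) le_add_self
      ((Cardinal.isSuccLimit_omega 1).add_one_lt hc)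
      ⟨hf, le_self_add.trans (right_le_opow _ one_lt_omega0)⟩ (Rat.cast_lt.2 hpq))⟩
  have hl : alphaSet {x | f x ≤ p} {x | q ≤ f x} ≤ ω ^ η :=
    (Ordinal.le_iSup (fun pq : {pq : ℚ × ℚ // pq.1 < pq.2} =>
      alphaSet {x | f x ≤ (pq.1.1 : ℝ)} {x | (pq.1.2 : ℝ) ≤ f x}) ⟨(p, q), hpq⟩).trans ha
  obtain ⟨F, hF, hB, hC⟩ : Sep _ _ (alphaSet {x | f x ≤ p} {x | q ≤ f x}) := csInf_mem hne
  set l := alphaSet {x | f x ≤ p} {x | q ≤ f x}
  have hcount := countable_Iio (hl.trans_lt (isPrincipal_opow_omega 1 omega0_lt_omega_one h2))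
  have hG : ∀ S : Set Ordinal.{0}, S ⊆ Iio l → IsGδ (⋂ a ∈ S, (F a)ᶜ ∪ F (a + 1)) := fun S hS =>
    IsGδ.biInter (hcount.mono hS) fun a _ =>
      (hF.closed a).isOpen_compl.isGδ.union (hF.closed _).isGδ
  refine ⟨tdiff F l, good_ind hρ h1 h2 ⟨?_, ?_⟩ ⟨F, hF, Subset.rfl, inter_compl_self _⟩ hl,
    fun x hx => hB hx, fun x hx hx' => ?_⟩
  · convert hG {a | a < l ∧ a % 2 ≠ 0} (fun a ha => ha.1) using 1
    ext x
    simp only [mem_tdiff, mem_iInter, mem_setOf_eq]
    constructor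
    · rintro ⟨b, hb, hxb⟩ a ha
      by_contra hn
      exact ha.2 (hF.uniq ⟨not_not.1 fun h => hn (Or.inl h), fun h => hn (Or.inr h)⟩ hxb ▸ hb.2)
    · intro h
      obtain ⟨a, ha, hxa⟩ := hF.level x
      exact ⟨a, ⟨ha, by_contra fun hn => (h a ⟨ha, hn⟩).elim (fun h => h hxa.1) hxa.2⟩, hxa⟩
  · convert hG {a | a < l ∧ a % 2 = 0} (fun a ha => ha.1) using 1
    ext x
    simp only [mem_compl_iff, mem_tdiff, mem_iInter, mem_setOf_eq, mem_union, mem_diff]
    constructor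
    · intro h a ha
      by_contra hn
      exact h ⟨a, ha, not_not.1 fun h => hn (Or.inl h), fun h => hn (Or.inr h)⟩
    · rintro h ⟨a, ha, hxa⟩
      exact (h a ha).elim (fun h => h hxa.1) hxa.2
  · have : x ∈ tdiff F l ∩ {x | q ≤ f x} := ⟨hx', hx⟩
    rw [hC] at this; exact this

lemma approx_step {f : X → ℝ} (hf : BB1 f) (ha : alpha f ≤ ω ^ η) (m ε : ℚ) (hε : 0 < ε)
    (hm : ∀ x, -(m : ℝ) ≤ f x) (N : ℕ) : ∃ g, Good ρ η g ∧ ∀ x, g x ≤ -m + N * ε ∧ g x ≤ f x + ε ∧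
      (-m + N * ε ≤ f x → -m + N * ε ≤ g x) ∧ (f x ≤ -m + N * ε → f x - ε ≤ g x) := by
  classical
  have hε' : (0 : ℝ) < ε := by exact_mod_cast hε
  have hone := good_open hρ h1 h2 (isOpen_univ (X := X))
  induction N with
  | zero =>
    refine ⟨_, good_smul hρ h1 h2 hone (-m), fun x => ?_⟩
    have := hm x
    simp only [Pi.smul_apply, indicator_univ, Pi.one_apply, _root_.smul_eq_mul, Nat.cast_zero]
    refine ⟨?_, ?_, fun _ => ?_, fun _ => ?_⟩ <;> linarith
  | succ N ih =>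
    obtain ⟨g, hg, hgx⟩ := ih
    obtain ⟨H, hH, hH1, hH2⟩ := sepset hρ h1 h2 hf ha (p := -m + N * ε) (q := -m + (N + 1) * ε)
      (by linarith)
    refine ⟨_, good_add hρ h1 h2 hg (good_add hρ h1 h2 (good_smul hρ h1 h2 hone ε)
      (good_smul hρ h1 h2 hH (-ε))), fun x => ?_⟩
    obtain ⟨a1, a2, a3, a4⟩ := hgx x
    have b1 := hH1 x
    have b2 := hH2 x
    push_cast at b1 b2 ⊢
    simp only [Pi.add_apply, Pi.smul_apply, indicator_univ, Pi.one_apply, _root_.smul_eq_mul]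
    by_cases hx : x ∈ H
    · rw [indicator_of_mem hx, Pi.one_apply]
      refine ⟨by linarith, by linarith, fun h => absurd hx (b2 h), fun h => ?_⟩
      rcases le_total (f x) (-m + N * ε) with h' | h'
      · linarith [a4 h']
      · linarith [a3 h']
    · rw [indicator_of_notMem hx]
      have h' : -m + N * ε < f x := not_le.1 fun h => hx (b1 h)
      refine ⟨by linarith, by linarith, fun _ => ?_, fun _ => ?_⟩ <;> linarith [a3 h'.le]

end

theorem result (X : Type) [TopologicalSpace X] [PolishSpace X] (ρ : (X → ℝ) → Ordinal.{0})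
    (hρ : RankP14 ρ) (f : X → ℝ) (hf : BB1 f) : Approx (ρ f) (alpha f) := by
  refine ⟨fun η h1 h2 ha => ?_, fun η h1 h2 ha => Ordinal.iSup_le fun pq =>
    csInf_le' (s := {l | Sep _ _ l}) (sep_of_G (lower hρ h1 h2 ⟨hf, ha⟩ (Rat.cast_lt.2 pq.2)))⟩
  obtain ⟨M, hM⟩ := hf.1
  obtain ⟨m, hm⟩ := exists_nat_ge M
  have key : ∀ n : ℕ, ∃ g, Good ρ η g ∧ ∀ x, |f x - g x| ≤ 1 / ((n : ℝ) + 1) := fun n => by
    obtain ⟨g, hg, hgx⟩ := approx_step hρ h1 h2 hf ha (m : ℚ) (1 / ((n : ℚ) + 1)) (by positivity)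
      (fun x => by push_cast; linarith [(abs_le.1 (hM x)).1]) (2 * m * (n + 1))
    refine ⟨g, hg, fun x => ?_⟩
    obtain ⟨-, a2, -, a4⟩ := hgx x
    push_cast at a2 a4
    have e : (2 * (m : ℝ) * (n + 1) * (1 / (n + 1))) = 2 * m := by field_simp
    rw [e] at a4
    have := a4 (by linarith [(abs_le.1 (hM x)).2])
    rw [abs_le]; constructor <;> linarith
  choose g hg hgx using key
  refine hρ.P3 g f (fun n => (hg n).1) hf (Metric.tendstoUniformly_iff.2 fun δ hδ => ?_) η h1 h2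
    (Ordinal.iSup_le fun n => (hg n).2)
  filter_upwards [tendsto_one_div_add_atTop_nhds_zero_nat.eventually (gt_mem_nhds hδ)] with n hn x
  exact (hgx n x).trans_lt hn

end Pool.Agent.Results.MP_12cd8a_lc.NoP5
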